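import Pool.Agent.Helper67.LM.Defs

/-! # Existence of a circumscribed simplex of minimal volume (packet MINS) -/

open MeasureTheory Set
open scoped ENNReal
open Pool.Agent.Helper47.AQ
open Pool.Agent.Helper67.LM

noncomputable section

namespace Pool.Agent.Helper79.LM

variable {ι : Type} [Fintype ι] [DecidableEq ι]

/-- The map `x ↦ M x + b`. -/
def am (p : (ι → ι → ℝ) × (ι → ℝ)) (x : ι → ℝ) : ι → ℝ := fun i => ∑ j, p.1 i j * x j + p.2 i

omit [DecidableEq ι] in
theorem continuous_am (x : ι → ℝ) : Continuous fun p : (ι → ι → ℝ) × (ι → ℝ) => am p x := by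
  unfold am
  fun_prop

omit [DecidableEq ι] in
theorem isClosed_T : IsClosed (T ι) := by
  have h1 : T ι = (⋂ i, {x : ι → ℝ | 0 ≤ x i}) ∩ {x | ∑ i, x i ≤ 1} := by
    ext x
    simp [T]
  rw [h1]
  refine IsClosed.inter (isClosed_iInter fun i => ?_) ?_
  · exact isClosed_le continuous_const (continuous_apply i)
  · exact isClosed_le (continuous_finsetSum _ fun i _ => continuous_apply i) continuous_const

omit [DecidableEq ι] in
theorem T_le_one {x : ι → ℝ} (hx : x ∈ T ι) (i : ι) : x i ≤ 1 :=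
  (Finset.single_le_sum (f := x) (fun j _ => hx.1 j) (Finset.mem_univ i)).trans hx.2

theorem T_simplex [Nonempty ι] : IsSimplex (T ι) := by
  have h2 := simplexW (fun _ : ι => (1 : ℝ)) (fun _ => one_pos)
  simp only [mul_one] at h2
  exact ⟨corner_simplex.body.int, h2⟩

/-- The set of the affine maps which send `K` into `T`. -/
def SS (K : Set (ι → ℝ)) : Set ((ι → ι → ℝ) × (ι → ℝ)) := {p | ∀ x ∈ K, am p x ∈ T ι}

omit [DecidableEq ι] in
theorem SS_closed (K : Set (ι → ℝ)) : IsClosed (SS K) := by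
  have h1 : SS K = ⋂ x ∈ K, (fun p => am p x) ⁻¹' T ι := by
    ext p
    simp [SS]
  rw [h1]
  exact isClosed_biInter fun x _ => isClosed_T.preimage (continuous_am x)

theorem SS_bounded {K : Set (ι → ℝ)} (hK : IsBody K) : Bornology.IsBounded (SS K) := by
  obtain ⟨x0, hx0⟩ := hK.int
  obtain ⟨r, hr, hball⟩ := Metric.nhds_basis_closedBall.mem_iff.1 (mem_interior_iff_mem_nhds.1 hx0)
  have hx0K : x0 ∈ K := hball (Metric.mem_closedBall_self hr.le)
  have hxj : ∀ j, x0 + Pi.single j r ∈ K := by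
    intro j
    apply hball
    rw [Metric.mem_closedBall, dist_eq_norm, add_sub_cancel_left, Pi.norm_single]
    rw [Real.norm_eq_abs, abs_of_pos hr]
  have hM : ∀ p ∈ SS K, ∀ i j, |p.1 i j| ≤ 1 / r := by
    intro p hp i j
    have h1 := hp _ hx0K
    have h2 := hp _ (hxj j)
    have h3 : am p (x0 + Pi.single j r) i = am p x0 i + p.1 i j * r := by
      unfold am
      simp only [Pi.add_apply, mul_add, Finset.sum_add_distrib]
      have : ∑ k, p.1 i k * (Pi.single j r : ι → ℝ) k = p.1 i j * r := by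
        rw [Finset.sum_eq_single j]
        · rw [Pi.single_eq_same]
        · intro k _ hk
          rw [Pi.single_eq_of_ne hk, mul_zero]
        · intro h; exact absurd (Finset.mem_univ _) h
      rw [this]; ring
    have h4 := h1.1 i
    have h5 := T_le_one h1 i
    have h6 := h2.1 i
    have h7 := T_le_one h2 i
    rw [h3] at h6 h7
    rw [abs_le, le_div_iff₀ hr]
    constructor
    · have : -(1 / r) * r = -1 := by field_simp
      by_contra hcon
      push Not at hcon
      have := mul_lt_mul_of_pos_right hcon hr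
      linarith
    · linarith
  have hb : ∀ p ∈ SS K, ∀ i, |p.2 i| ≤ 1 + ∑ j, 1 / r * |x0 j| := by
    intro p hp i
    have h1 := hp _ hx0K
    have h4 := h1.1 i
    have h5 := T_le_one h1 i
    have h6 : |∑ j, p.1 i j * x0 j| ≤ ∑ j, 1 / r * |x0 j| := by
      refine (Finset.abs_sum_le_sum_abs _ _).trans (Finset.sum_le_sum fun j _ => ?_)
      rw [abs_mul]
      exact mul_le_mul_of_nonneg_right (hM p hp i j) (abs_nonneg _)
    have h7 : am p x0 i = ∑ j, p.1 i j * x0 j + p.2 i := rfl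
    have h8 := abs_le.1 h6
    rw [abs_le]
    constructor <;> linarith
  rw [isBounded_iff_forall_norm_le]
  refine ⟨max (1 / r) (1 + ∑ j, 1 / r * |x0 j|), fun p hp => ?_⟩
  have hr1 : 0 ≤ 1 / r := by positivity
  have hr2 : 0 ≤ 1 + ∑ j, 1 / r * |x0 j| := by positivity
  rw [Prod.norm_def]
  refine max_le ?_ ?_
  · refine le_trans ?_ (le_max_left _ _)
    rw [pi_norm_le_iff_of_nonneg hr1]
    intro i
    rw [pi_norm_le_iff_of_nonneg hr1]
    intro j
    exact hM p hp i j
  · refine le_trans ?_ (le_max_right _ _)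
    rw [pi_norm_le_iff_of_nonneg hr2]
    intro i
    exact hb p hp i

/-- The scalar maps. -/
theorem SS_scalar [Nonempty ι] {K : Set (ι → ℝ)} (hK : IsBody K) : ∃ s : ℝ, 0 < s ∧ ∃ b : ι → ℝ,
    ((fun i j => if i = j then s else 0), b) ∈ SS K := by
  obtain ⟨R, hR⟩ := hK.comp.isBounded.exists_norm_le
  set R' := max R 1 with hR'
  have hR1 : 1 ≤ R' := le_max_right _ _
  set n : ℝ := (Fintype.card ι : ℝ) with hn
  have hn0 : 0 < n := by rw [hn]; exact_mod_cast Fintype.card_pos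
  refine ⟨1 / (2 * n * R'), by positivity, fun _ => 1 / (2 * n), ?_⟩
  intro x hx
  have hxn : ∀ i, |x i| ≤ R' := fun i => (norm_le_pi_norm x i).trans ((hR x hx).trans (le_max_left _ _))
  have he : ∀ i, am ((fun i j => if i = j then 1 / (2 * n * R') else 0), fun _ => 1 / (2 * n)) x i =
      1 / (2 * n * R') * x i + 1 / (2 * n) := by
    intro i
    unfold am
    simp
  have hs : ∀ i, |1 / (2 * n * R') * x i| ≤ 1 / (2 * n) := by
    intro i
    rw [abs_mul, abs_of_pos (by positivity : (0 : ℝ) < 1 / (2 * n * R'))]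
    calc 1 / (2 * n * R') * |x i| ≤ 1 / (2 * n * R') * R' :=
          mul_le_mul_of_nonneg_left (hxn i) (by positivity)
      _ = 1 / (2 * n) := by field_simp
  constructor
  · intro i
    rw [he]
    have := (abs_le.1 (hs i)).1
    linarith
  · calc ∑ i, am ((fun i j => if i = j then 1 / (2 * n * R') else 0), fun _ => 1 / (2 * n)) x i
        ≤ ∑ _i : ι, 1 / n := by
          refine Finset.sum_le_sum fun i _ => ?_
          rw [he]
          have := (abs_le.1 (hs i)).2
          have h2 : 1 / n = 1 / (2 * n) + 1 / (2 * n) := by field_simp; norm_num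
          linarith
      _ = 1 := by
          rw [Finset.sum_const, Finset.card_univ, nsmul_eq_mul, ← hn]
          field_simp

/-- The matrix and vector of an affine map. -/
def mb (A : (ι → ℝ) →ᵃ[ℝ] (ι → ℝ)) : (ι → ι → ℝ) × (ι → ℝ) :=
  (fun i j => LinearMap.toMatrix' A.linear i j, A 0)

theorem am_mb (A : (ι → ℝ) →ᵃ[ℝ] (ι → ℝ)) (x : ι → ℝ) : am (mb A) x = A x := by
  funext i
  have h1 : A x = A.linear x + A 0 := by
    have := A.map_vadd 0 x
    simpa using this
  have h2 : (LinearMap.toMatrix' A.linear).mulVec x = A.linear x := by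
    rw [← Matrix.toLin'_apply, Matrix.toLin'_toMatrix']
  rw [h1, ← h2]
  rfl

theorem det_mb (A : (ι → ℝ) →ᵃ[ℝ] (ι → ℝ)) :
    Matrix.det (Matrix.of (mb A).1) = LinearMap.det A.linear := by
  rw [← LinearMap.det_toMatrix']
  rfl

omit [DecidableEq ι] in
theorem volume_image (A : (ι → ℝ) →ᵃ[ℝ] (ι → ℝ)) (D : Set (ι → ℝ)) :
    volume (A '' D) = ENNReal.ofReal |LinearMap.det A.linear| * volume D := by
  have h1 : (A : (ι → ℝ) → (ι → ℝ)) '' D = (fun y => A 0 + y) '' (A.linear '' D) := by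
    rw [Set.image_image]
    refine Set.image_congr fun x _ => ?_
    have := A.map_vadd 0 x
    simp only [vadd_eq_add, add_zero] at this
    rw [this, add_comm]
  rw [h1, Set.image_add_left, measure_preimage_add, Measure.addHaar_image_linearMap]

theorem mins [Nonempty ι] {K : Set (ι → ℝ)} (hK : IsBody K) :
    ∃ A : (ι → ℝ) ≃ᵃ[ℝ] (ι → ℝ), A '' K ⊆ T ι ∧
      ∀ D : Set (ι → ℝ), IsSimplex D → A '' K ⊆ D → volume (T ι) ≤ volume D := by
  have hcomp : IsCompact (SS K) :=
    Metric.isCompact_of_isClosed_isBounded (SS_closed K) (SS_bounded hK)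
  obtain ⟨s, hs0, b, hsb⟩ := SS_scalar hK
  have hcont : Continuous fun p : (ι → ι → ℝ) × (ι → ℝ) => |Matrix.det (Matrix.of p.1)| := by
    refine Continuous.abs (Continuous.matrix_det ?_)
    exact continuous_fst
  obtain ⟨p, hp, hmax⟩ := hcomp.exists_isMaxOn ⟨_, hsb⟩ hcont.continuousOn
  have hpos : 0 < |Matrix.det (Matrix.of p.1)| := by
    have h1 : |Matrix.det (Matrix.of (fun i j : ι => if i = j then s else 0))| ≤
        |Matrix.det (Matrix.of p.1)| := hmax hsb
    have h2 : Matrix.of (fun i j : ι => if i = j then s else 0) = Matrix.diagonal fun _ => s := by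
      ext i j
      rw [Matrix.of_apply, Matrix.diagonal_apply]
    rw [h2, Matrix.det_diagonal, Finset.prod_const] at h1
    exact lt_of_lt_of_le (abs_pos.2 (pow_ne_zero _ hs0.ne')) h1
  have hdet : Matrix.det (Matrix.of p.1) ≠ 0 := abs_pos.1 hpos
  have hinv : Invertible (Matrix.of p.1) := Matrix.invertibleOfIsUnitDet _ hdet.isUnit
  set L : (ι → ℝ) ≃ₗ[ℝ] (ι → ℝ) := Matrix.toLinearEquiv' (Matrix.of p.1) hinv with hL
  set A : (ι → ℝ) ≃ᵃ[ℝ] (ι → ℝ) :=
    L.toAffineEquiv.trans (AffineEquiv.constVAdd ℝ (ι → ℝ) p.2) with hA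
  have hLx : ∀ x, L x = (Matrix.of p.1).mulVec x := fun x => rfl
  have hAx : ∀ x, A x = am p x := by
    intro x
    have h1 : A x = p.2 + L x := rfl
    rw [h1, hLx, add_comm]
    rfl
  refine ⟨A, ?_, ?_⟩
  · rintro _ ⟨x, hx, rfl⟩
    rw [hAx]
    exact hp x hx
  · intro D hD hKD
    obtain ⟨A', hA'⟩ := hD.equiv T_simplex rfl
    have hmem : mb ((A.trans A' : (ι → ℝ) ≃ᵃ[ℝ] (ι → ℝ)) : (ι → ℝ) →ᵃ[ℝ] (ι → ℝ)) ∈ SS K := by
      intro x hx
      rw [am_mb]
      rw [← hA']
      exact ⟨A x, hKD ⟨x, hx, rfl⟩, rfl⟩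
    have h1 : |Matrix.det (Matrix.of
        (mb ((A.trans A' : (ι → ℝ) ≃ᵃ[ℝ] (ι → ℝ)) : (ι → ℝ) →ᵃ[ℝ] (ι → ℝ))).1)| ≤
        |Matrix.det (Matrix.of p.1)| := hmax hmem
    rw [det_mb] at h1
    have hlinA : LinearMap.det ((A : (ι → ℝ) →ᵃ[ℝ] (ι → ℝ)).linear) =
        Matrix.det (Matrix.of p.1) := by
      have h2 : (A : (ι → ℝ) →ᵃ[ℝ] (ι → ℝ)).linear = Matrix.toLin' (Matrix.of p.1) := by
        ext x
        rfl
      rw [h2, LinearMap.det_toLin']
    have hlin : ((A.trans A' : (ι → ℝ) ≃ᵃ[ℝ] (ι → ℝ)) : (ι → ℝ) →ᵃ[ℝ] (ι → ℝ)).linear =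
        ((A' : (ι → ℝ) →ᵃ[ℝ] (ι → ℝ)).linear).comp ((A : (ι → ℝ) →ᵃ[ℝ] (ι → ℝ)).linear) := rfl
    rw [hlin, LinearMap.det_comp, abs_mul, hlinA] at h1
    have h3 : |LinearMap.det ((A' : (ι → ℝ) →ᵃ[ℝ] (ι → ℝ)).linear)| ≤ 1 := by
      by_contra hcon
      push Not at hcon
      have := mul_lt_mul_of_pos_right hcon hpos
      linarith
    rw [← hA']
    have h4 := volume_image (A' : (ι → ℝ) →ᵃ[ℝ] (ι → ℝ)) D
    have h5 : ((A' : (ι → ℝ) →ᵃ[ℝ] (ι → ℝ)) : (ι → ℝ) → (ι → ℝ)) '' D = A' '' D := rfl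
    rw [← h5, h4]
    calc ENNReal.ofReal |LinearMap.det ((A' : (ι → ℝ) →ᵃ[ℝ] (ι → ℝ)).linear)| * volume D
        ≤ 1 * volume D := by
          refine mul_le_mul_left ?_ _
          rw [← ENNReal.ofReal_one]
          exact ENNReal.ofReal_le_ofReal h3
      _ = volume D := one_mul _

end Pool.Agent.Helper79.LM
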